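import Pool.Agent.H8.Sl.Main
import Pool.Agent.H7.Artin.Alt

/-!
Special linear groups in characteristic two: Heilbronn class functions and Artin L-functions.
-/

open NumberField Module Pool.Agent.H7 Pool.Agent.H7.Artin

namespace Pool.Agent.H8.Sl

/-- Heilbronn class functions of small degree on groups isomorphic to a special linear group. -/
theorem heil_SL {F : Type} [Field F] [Fintype F] [DecidableEq F] [CharP F 2] {n : ℕ}
    {G : Type} [Group G] (e : G ≃* Matrix.SpecialLinearGroup (Fin n) F) (θ : G → ℂ)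
    (hθ : HB.Heil θ) {r : ℕ} (hr : θ 1 = r) (hrn : r + 2 ≤ Fintype.card F ^ (n - 1)) (g : G) :
    θ g = r := by
  let e2 : G ≃* SpecialLinearGroup F (Fin n → F) :=
    e.trans Matrix.SpecialLinearGroup.toLin'_equiv
  have h1 : HB.Heil (fun x => θ (e2.symm x)) := hθ.comp e2.symm.toMonoidHom
  have h2 := heil_const h1 (r := r) (by
    rw [map_one, hr]) (by
    rw [Nat.card_eq_fintype_card, Module.finrank_fin_fun]
    omega) (e2 g)
  change θ (e2.symm (e2 g)) = θ (e2.symm 1) at h2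
  rw [MulEquiv.symm_apply_apply, map_one, hr] at h2
  exact h2

theorem isHeilbronn_SL {F : Type} [Field F] [Fintype F] [DecidableEq F] [CharP F 2] {n : ℕ}
    (θ : Matrix.SpecialLinearGroup (Fin n) F → ℂ) (hθ : IsHeilbronn θ) (r : ℕ) (hr : θ 1 = r)
    (hrn : r + 2 ≤ Fintype.card F ^ (n - 1)) (g : Matrix.SpecialLinearGroup (Fin n) F) :
    θ g = r :=
  heil_SL (MulEquiv.refl _) θ hθ.heil hr hrn g

theorem addFn_const {G : Type} [Group G] [Fintype G] (m : ℕ)
    (hG : ∀ (θ : G → ℂ), HB.Heil θ → ∀ r : ℕ, θ 1 = r → r + 2 ≤ m → ∀ g, θ g = r)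
    (A : AddFn G)
    (hmon : ∀ (H : Subgroup G) (ψ : H →* ℂˣ), 0 ≤ A.ord (indSpace H ψ) (indRep H ψ))
    (hreg : A.ord (G → ℂ) (ltr G) + 2 ≤ m) {V : Type} [AddCommGroup V] [Module ℂ V]
    [FiniteDimensional ℂ V] (ρ : Representation ℂ G V) [ρ.IsIrreducible] (hρ : ∃ g, ρ g ≠ 1) :
    A.ord V ρ = 0 := by
  classical
  obtain ⟨θ, hθ, hord⟩ := heil_of_addFn A hmon
  obtain ⟨r, hr⟩ := hθ.exists_deg
  have hregord := ord_regular A hord
  rw [hr] at hregord
  have hrn : r + 2 ≤ m := by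
    have h1 : (A.ord (G → ℂ) (ltr G) : ℤ) = r := by exact_mod_cast hregord
    rw [h1] at hreg
    exact_mod_cast hreg
  have hconst := hG θ hθ r hr hrn
  have hip : ip θ ρ.character = (r : ℂ) * ip (fun g => (((1 : G →* ℂˣ) g : ℂˣ) : ℂ))
      ρ.character := by
    unfold ip
    simp_rw [hconst]
    rw [mul_left_comm]
    congr 1
    rw [Finset.mul_sum]
    refine Finset.sum_congr rfl fun g _ => ?_
    simp
  have hval := hord V ρ
  rw [hip, ip_lin, finrank_intertwining_trivial ρ hρ] at hval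
  have : (A.ord V ρ : ℂ) = 0 := by rw [hval]; simp
  exact_mod_cast this

/-- If the Heilbronn class functions of degree at most `m - 2` on the Galois group are constant
then a zero of order at most `m - 2` of the Dedekind zeta function is not a zero or pole of the
Artin L-functions of the nontrivial irreducible characters. -/
theorem const_order (K L : Type) [Field K] [NumberField K] [Field L] [NumberField L]
    [Algebra K L] [IsGalois K L] (m : ℕ)
    (hG : ∀ (θ : Gal(L/K) → ℂ), HB.Heil θ → ∀ r : ℕ, θ 1 = r → r + 2 ≤ m → ∀ g, θ g = r)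
    (hcont : ∀ (V : Type) [AddCommGroup V] [Module ℂ V] [FiniteDimensional ℂ V]
      (ρ : Representation ℂ Gal(L/K) V), ∃ F : ℂ → ℂ, IsContinuation K L ρ F) (s₀ : ℂ)
    (hmono : ∀ (H : Subgroup Gal(L/K)) (ψ : H →* ℂˣ) (V : Type) [AddCommGroup V] [Module ℂ V]
      [FiniteDimensional ℂ V] (ρ : Representation ℂ Gal(L/K) V) (F : ℂ → ℂ),
      ρ.character = indChar H ψ → IsContinuation K L ρ F → 0 ≤ meromorphicOrderAt F s₀)
    (Z : ℂ → ℂ) (hZ : IsContinuation K L (ltr Gal(L/K)) Z)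
    (hord : meromorphicOrderAt Z s₀ + 2 ≤ ((m : ℤ) : WithTop ℤ))
    {V : Type} [AddCommGroup V] [Module ℂ V] [FiniteDimensional ℂ V]
    (ρ : Representation ℂ Gal(L/K) V) [ρ.IsIrreducible] (hρ : ∃ g, ρ g ≠ 1) (F : ℂ → ℂ)
    (hF : IsContinuation K L ρ F) : meromorphicOrderAt F s₀ = 0 := by
  classical
  have key := addFn_const m hG (ordFn K L hcont s₀) (fun H ψ => by
    obtain ⟨F, hF⟩ := hcont _ (indRep H ψ)
    have h1 := hmono H ψ _ (indRep H ψ) F (funext (indRep_character H ψ)) hF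
    rw [ordFn_spec K L hcont s₀ _ F hF] at h1
    exact_mod_cast h1) (by
    rw [ordFn_spec K L hcont s₀ _ Z hZ] at hord
    exact WithTop.coe_le_coe.1 hord) ρ hρ
  rw [ordFn_spec K L hcont s₀ ρ F hF, key]
  rfl

end Pool.Agent.H8.Sl
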