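import Pool.Agent.H8.Sl.Mono
import Mathlib.LinearAlgebra.Semisimple
import Mathlib.FieldTheory.KummerExtension
import Mathlib.FieldTheory.Galois.NormalBasis
import Mathlib.FieldTheory.Finite.GaloisField

/-!
Decomposing a semisimple linear map as a product of multiplications in field extensions.
-/

open Finset Module Polynomial

namespace Pool.Agent.H8.Sl

set_option linter.unusedSectionVars false

section decomp

variable {F : Type} [Field F] {V : Type} [AddCommGroup V] [Module F V] [FiniteDimensional F V]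

theorem exists_decomp (T : Module.End F V) (hT : T.IsSemisimple) :
    ∃ (n : ℕ) (K : Fin n → Type) (_ : ∀ i, Field (K i)) (_ : ∀ i, Algebra F (K i))
      (t : ∀ i, K i) (e : V ≃ₗ[F] ∀ i, K i), (∀ v i, e (T v) i = t i * e v i) ∧
      ∀ i, Algebra.adjoin F {t i} = ⊤ := by
  classical
  have hss : IsSemisimpleModule F[X] (AEval' T) := hT
  obtain ⟨n, S, e, hS⟩ := IsSemisimpleModule.exists_linearEquiv_fin_dfinsupp F[X] (AEval' T)
  have hI := fun i => isSimpleModule_iff_quot_maximal.1 (hS i)
  choose I hI e' using hI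
  have e'' : ∀ i, (S i) ≃ₗ[F[X]] F[X] ⧸ I i := fun i => (e' i).some
  let E : AEval' T ≃ₗ[F[X]] ∀ i, F[X] ⧸ I i :=
    (e.trans DFinsupp.linearEquivFunOnFintype).trans (LinearEquiv.piCongrRight e'')
  let E2 : V ≃ₗ[F] ∀ i, F[X] ⧸ I i := (AEval'.of T).trans (E.restrictScalars F)
  refine ⟨n, fun i => F[X] ⧸ I i, fun i => Ideal.Quotient.field (I i), fun i => inferInstance,
    fun i => Ideal.Quotient.mk (I i) X, E2, ?_, ?_⟩
  · intro v i
    change E (AEval'.of T (T v)) i = _
    have h1 : AEval'.of T (T v) = (X : F[X]) • AEval'.of T v := (AEval'.X_smul_of T v).symm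
    rw [h1, map_smul]
    rfl
  · intro i
    have h1 := Polynomial.adjoin_X (R := F)
    have h2 : (Algebra.adjoin F ({X} : Set F[X])).map (Ideal.Quotient.mkₐ F (I i)) = ⊤ := by
      rw [h1, Algebra.map_top]
      exact (AlgHom.range_eq_top _).2 (Ideal.Quotient.mkₐ_surjective F (I i))
    rw [AlgHom.map_adjoin, Set.image_singleton] at h2
    exact h2

theorem semisimple_of_pow {T : Module.End F V} {m : ℕ} (hm : (m : F) ≠ 0) (hT : T ^ m = 1) :
    T.IsSemisimple := by
  refine Module.End.isSemisimple_of_squarefree_aeval_eq_zero (p := X ^ m - 1)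
    (Polynomial.X_pow_sub_one_separable_iff.2 hm).squarefree ?_
  rw [map_sub, map_pow, aeval_X, map_one, hT, sub_self]

end decomp

section kummer

variable {F : Type} [Field F] [Finite F] {K : Type} [Field K] [Algebra F K] [FiniteDimensional F K]

theorem mem_range_of_pow_card {x : K} (hx : x ^ Nat.card F = x) :
    x ∈ Set.range (algebraMap F K) := by
  classical
  have := Fintype.ofFinite F
  rw [Nat.card_eq_fintype_card] at hx
  by_contra hne
  have h0 : (X ^ Fintype.card F - X : K[X]) ≠ 0 :=
    FiniteField.X_pow_card_sub_X_ne_zero K Fintype.one_lt_card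
  have h1 := Polynomial.card_le_degree_of_subset_roots
    (p := (X ^ Fintype.card F - X : K[X])) (Z := insert x (univ.image (algebraMap F K))) (by
      intro y hy
      rw [Polynomial.mem_roots h0, IsRoot, eval_sub, eval_pow, eval_X, sub_eq_zero]
      have hy' : y ∈ insert x (univ.image (algebraMap F K)) := hy
      rw [Finset.mem_insert, Finset.mem_image] at hy'
      rcases hy' with rfl | ⟨a, -, rfl⟩
      · exact hx
      · rw [← map_pow, FiniteField.pow_card])
  rw [FiniteField.X_pow_card_sub_X_natDegree_eq K Fintype.one_lt_card,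
    Finset.card_insert_of_notMem (by
      intro h
      obtain ⟨a, -, ha⟩ := Finset.mem_image.1 h
      exact hne ⟨a, ha⟩),
    Finset.card_image_of_injective _ (algebraMap F K).injective, Finset.card_univ] at h1
  omega

/-- An element of prime power order of a finite field acts monomially if the prime divides the
order of the multiplicative group of the ground field. -/
theorem kummer_mono {p : ℕ} (hp : p.Prime) (hp2 : p ≠ 2) (hpF : p ∣ Nat.card F - 1) (t : K)
    (ht : Algebra.adjoin F {t} = ⊤) (a : ℕ) (hta : t ^ p ^ a = 1) :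
    ∃ (N : ℕ) (b : Basis (Fin N) F K) (σ : Equiv.Perm (Fin N)) (d : Fin N → Fˣ),
      ∀ j, t * b j = d j • b (σ j) := by
  classical
  have hcard : 1 ≤ Nat.card F := Nat.card_pos
  have hroot : ∀ x : K, x ^ p = 1 → x ∈ Set.range (algebraMap F K) := by
    intro x hx
    apply mem_range_of_pow_card
    obtain ⟨k, hk⟩ := hpF
    have : Nat.card F = p * k + 1 := by omega
    rw [this, pow_succ, pow_mul, hx, one_pow, one_mul]
  have hex : ∃ n, t ^ p ^ n ∈ Set.range (algebraMap F K) := ⟨a, by rw [hta]; exact ⟨1, map_one _⟩⟩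
  obtain ⟨n, hn, hmin⟩ : ∃ n, t ^ p ^ n ∈ Set.range (algebraMap F K) ∧
      ∀ m < n, t ^ p ^ m ∉ Set.range (algebraMap F K) :=
    ⟨Nat.find hex, Nat.find_spec hex, fun m hm => Nat.find_min hex hm⟩
  obtain ⟨c, hc⟩ := hn
  have ht0 : t ≠ 0 := by
    rintro rfl
    rw [zero_pow (pow_pos hp.pos a).ne'] at hta
    exact zero_ne_one hta
  have hc0 : c ≠ 0 := by
    rintro rfl
    rw [map_zero] at hc
    exact pow_ne_zero _ ht0 hc.symm
  have hirr : Irreducible (X ^ p ^ n - C c : F[X]) := by
    rcases n with _ | n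
    · rw [pow_zero, pow_one]
      exact irreducible_X_sub_C c
    · apply X_pow_sub_C_irreducible_of_prime_pow hp hp2
      intro d hd
      apply hmin n (Nat.lt_succ_self n)
      have hd0 : d ≠ 0 := by
        rintro rfl
        rw [zero_pow hp.ne_zero] at hd
        exact hc0 hd.symm
      have hd0' : algebraMap F K d ≠ 0 := by
        rw [Ne, map_eq_zero_iff _ (algebraMap F K).injective]
        exact hd0
      obtain ⟨y, hy⟩ := hroot (t ^ p ^ n / algebraMap F K d) (by
        rw [div_pow, ← pow_mul, ← pow_succ, ← hc, ← map_pow, hd, div_self]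
        rw [Ne, map_eq_zero_iff _ (algebraMap F K).injective]
        exact hc0)
      refine ⟨y * d, ?_⟩
      rw [map_mul, hy, div_mul_cancel₀ _ hd0']
  have hmonic : (X ^ p ^ n - C c : F[X]).Monic := monic_X_pow_sub_C c (pow_pos hp.pos n).ne'
  have hmin' : X ^ p ^ n - C c = minpoly F t := by
    refine minpoly.eq_of_irreducible_of_monic hirr ?_ hmonic
    rw [map_sub, map_pow, aeval_X, aeval_C, hc, sub_self]
  let pb := PowerBasis.ofAdjoinEqTop (IsIntegral.of_finite F t) ht
  have hdim : pb.dim = p ^ n := by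
    have h1 : pb.dim = (minpoly F t).natDegree := PowerBasis.ofAdjoinEqTop_dim _ _
    rw [h1, ← hmin', natDegree_X_pow_sub_C]
  have hgen : pb.gen = t := PowerBasis.ofAdjoinEqTop_gen _ _
  obtain ⟨m, hm⟩ : ∃ m, pb.dim = m + 1 := ⟨p ^ n - 1, by
    rw [hdim]
    have := pow_pos hp.pos n
    omega⟩
  let b : Basis (Fin (m + 1)) F K := pb.basis.reindex (finCongr hm)
  have hb : ∀ j, b j = t ^ (j : ℕ) := by
    intro j
    rw [Basis.reindex_apply, PowerBasis.basis_eq_pow, hgen]
    rfl
  refine ⟨m + 1, b, finRotate (m + 1), fun j => if j = Fin.last m then Units.mk0 c hc0 else 1, ?_⟩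
  intro j
  rw [hb, hb]
  change t * t ^ (j : ℕ) = (if j = Fin.last m then Units.mk0 c hc0 else 1)
    • t ^ ((finRotate (m + 1) j : Fin (m + 1)) : ℕ)
  by_cases hj : j = Fin.last m
  · rw [if_pos hj, hj, finRotate_last, Fin.val_zero, pow_zero, Fin.val_last, ← pow_succ', ← hm,
      hdim, ← hc, Units.smul_def, Units.val_mk0, Algebra.smul_def, mul_one]
  · rw [if_neg hj, one_smul, ← pow_succ']
    obtain ⟨j, hj'⟩ := j
    have hlt : j < m := by
      have h1 : j ≠ m := fun h => hj (Fin.ext h)
      omega
    rw [finRotate_of_lt hlt]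

end kummer

end Pool.Agent.H8.Sl
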