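import Pool.Agent.H8.Sl.Decomp

/-!
Heilbronn class functions of small degree on special linear groups in characteristic two are
constant.
-/

open Finset Pool.Agent.H7.HB Module

namespace Pool.Agent.H8.Sl

set_option linter.unusedSectionVars false

variable {F : Type} [Field F] [Finite F] [CharP F 2] {V : Type} [AddCommGroup V] [Module F V]
  [FiniteDimensional F V]

theorem cast_ne_zero {p : ℕ} (hp : p.Prime) (hp2 : p ≠ 2) (a : ℕ) : ((p ^ a : ℕ) : F) ≠ 0 := by
  intro h0
  have h1 := (CharP.cast_eq_zero_iff F 2 (p ^ a)).1 h0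
  have h2 := Nat.prime_two.dvd_of_dvd_pow h1
  exact hp2 ((Nat.prime_dvd_prime_iff_eq Nat.prime_two hp).1 h2).symm

theorem coe_pow_apply (g : SpecialLinearGroup F V) (j : ℕ) (x : V) :
    (((g.1 : V →ₗ[F] V) : Module.End F V) ^ j) x = (g ^ j) x := by
  induction j generalizing x with
  | zero => rw [pow_zero, pow_zero, one_app]; rfl
  | succ j ih =>
    rw [pow_succ', pow_succ', Module.End.mul_apply, ih, mul_app]
    rfl

theorem coe_pow_eq_one {g : SpecialLinearGroup F V} {m : ℕ} (hg : g ^ m = 1) :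
    ((g.1 : V →ₗ[F] V) : Module.End F V) ^ m = 1 := by
  ext x
  rw [coe_pow_apply, hg, one_app]
  rfl

/-- A decomposition for elements of odd prime power order. -/
theorem exists_decomp_SL (g : SpecialLinearGroup F V) {p : ℕ} (hp : p.Prime) (hp2 : p ≠ 2)
    {a : ℕ} (hg : g ^ p ^ a = 1) :
    ∃ (n : ℕ) (K : Fin n → Type) (_ : ∀ i, Field (K i)) (_ : ∀ i, Algebra F (K i))
      (_ : ∀ i, FiniteDimensional F (K i)) (t : ∀ i, K i) (e : V ≃ₗ[F] ∀ i, K i),
      (∀ v i, e (g v) i = t i * e v i) ∧ (∀ i, Algebra.adjoin F {t i} = ⊤) ∧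
      ∀ i, t i ^ p ^ a = 1 := by
  obtain ⟨n, K, hK, hA, t, e, h1, h2⟩ := exists_decomp ((g.1 : V →ₗ[F] V) : Module.End F V)
    (semisimple_of_pow (cast_ne_zero hp hp2 a) (coe_pow_eq_one hg))
  have h1' : ∀ v i, e (g v) i = t i * e v i := h1
  refine ⟨n, K, hK, hA, fun i => ?_, t, e, h1', h2, fun i => ?_⟩
  · refine Module.Finite.of_surjective ((LinearMap.proj i).comp (e : V →ₗ[F] ∀ i, K i)) ?_
    exact (Function.surjective_eval i).comp e.surjective
  · have h3 : ∀ (j : ℕ) v, e ((g ^ j) v) i = t i ^ j * e v i := by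
      intro j
      induction j with
      | zero => intro v; rw [pow_zero, pow_zero, one_app, one_mul]
      | succ j ih => intro v; rw [pow_succ', mul_app, h1', ih, pow_succ', mul_assoc]
    have h4 := h3 (p ^ a) (e.symm (fun _ => 1))
    rw [hg, one_app, LinearEquiv.apply_symm_apply, mul_one] at h4
    exact h4.symm

variable {θ : SpecialLinearGroup F V → ℂ}

theorem triv_case_dvd (h : Heil θ) (htv : ∀ (f : Dual F V) (v : V) (hv : f v = 0),
    θ (tv f v hv) = θ 1) (g : SpecialLinearGroup F V) {p : ℕ} (hp : p.Prime) (hp2 : p ≠ 2)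
    (hpF : p ∣ Nat.card F - 1) {a : ℕ} (hg : g ^ p ^ a = 1) : θ g = θ 1 := by
  classical
  obtain ⟨n, K, hK, hA, hfd, t, e, h1, h2, h3⟩ := exists_decomp_SL g hp hp2 hg
  choose N b σ d hb using fun i => kummer_mono hp hp2 hpF (t i) (h2 i) a (h3 i)
  let B : Basis (Σ i, Fin (N i)) F V := (Pi.basis b).map e.symm
  refine triv_mono h htv B (Equiv.Perm.sigmaCongrRight σ) (fun x => d x.1 x.2) g ?_
  rintro ⟨i, j⟩
  apply e.injective
  funext k
  rw [h1, Units.smul_def, map_smul]
  change t k * e (e.symm (Pi.basis b ⟨i, j⟩)) k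
    = ((d i j : Fˣ) : F) • e (e.symm (Pi.basis b ⟨i, σ i j⟩)) k
  rw [LinearEquiv.apply_symm_apply, LinearEquiv.apply_symm_apply, Pi.basis_apply, Pi.basis_apply]
  by_cases hk : k = i
  · subst hk
    rw [Pi.single_eq_same, Pi.single_eq_same, hb, Units.smul_def]
  · rw [Pi.single_eq_of_ne hk, Pi.single_eq_of_ne hk, mul_zero, smul_zero]

theorem triv_case_not_dvd (h : Heil θ) (htv : ∀ (f : Dual F V) (v : V) (hv : f v = 0),
    θ (tv f v hv) = θ 1) (g : SpecialLinearGroup F V) {p : ℕ} (hp : p.Prime) (hp2 : p ≠ 2)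
    (hpF : ¬ p ∣ Nat.card F - 1) {a : ℕ} (hg : g ^ p ^ a = 1) : θ g = θ 1 := by
  classical
  have hFf : Fintype F := Fintype.ofFinite F
  obtain ⟨n, K, hK, hA, hfd, t, e, h1, h2, h3⟩ := exists_decomp_SL g hp hp2 hg
  have hKf : ∀ i, Finite (K i) := fun i => Module.finite_of_finite F
  let fr : ∀ i, Gal(K i/F) := fun i => FiniteField.frobeniusAlgEquivOfAlgebraic F (K i)
  have hfr : ∀ i x, fr i x = x ^ Fintype.card F := fun i x => rfl
  let B : Basis (Σ i, Gal(K i/F)) F V :=
    (Pi.basis fun i => IsGalois.normalBasis F (K i)).map e.symm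
  let σ : Equiv.Perm (Σ i, Gal(K i/F)) := Equiv.Perm.sigmaCongrRight (fun i => Equiv.mulLeft (fr i))
  have hB : ∀ i τ, e (B ⟨i, τ⟩) = Pi.single i (IsGalois.normalBasis F (K i) τ) := by
    intro i τ
    change e (e.symm (Pi.basis (fun i => IsGalois.normalBasis F (K i)) ⟨i, τ⟩)) = _
    rw [LinearEquiv.apply_symm_apply, Pi.basis_apply]
  let Φ : V →ₗ[F] V := (e.symm : (∀ i, K i) →ₗ[F] V).comp
    ((LinearMap.pi fun i => (fr i).toLinearMap.comp (LinearMap.proj i)).comp
      (e : V →ₗ[F] ∀ i, K i))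
  have hΦ : ((permSL B σ).1 : V →ₗ[F] V) = Φ := by
    refine B.ext ?_
    rintro ⟨i, τ⟩
    apply e.injective
    change e (permSL B σ (B ⟨i, τ⟩)) = e (e.symm (fun k => fr k (e (B ⟨i, τ⟩) k)))
    rw [permSL_apply, LinearEquiv.apply_symm_apply]
    change e (B ⟨i, fr i * τ⟩) = _
    rw [hB, hB]
    funext k
    by_cases hk : k = i
    · subst hk
      rw [Pi.single_eq_same, Pi.single_eq_same, IsGalois.normalBasis_apply (fr k * τ),
        IsGalois.normalBasis_apply τ]
      rfl
    · rw [Pi.single_eq_of_ne hk, Pi.single_eq_of_ne hk, map_zero]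
  have hφ : ∀ v k, e (permSL B σ v) k = (e v k) ^ Fintype.card F := by
    intro v k
    have h4 : permSL B σ v = Φ v := LinearMap.congr_fun hΦ v
    rw [h4]
    change e (e.symm (fun k => fr k (e v k))) k = _
    rw [LinearEquiv.apply_symm_apply, hfr]
  have hgpow : ∀ (j : ℕ) v i, e ((g ^ j) v) i = t i ^ j * e v i := by
    intro j
    induction j with
    | zero => intro v i; rw [pow_zero, pow_zero, one_app, one_mul]
    | succ j ih => intro v i; rw [pow_succ', mul_app, h1, ih, pow_succ', mul_assoc]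
  refine triv_of_conj_pow_coprime h g (permSL B σ) (Fintype.card F : ℕ)
    (triv_perm h htv B σ) ?_ ?_
  · rw [mul_inv_eq_iff_eq_mul, zpow_natCast]
    ext v
    apply e.injective
    funext k
    rw [mul_app, mul_app, hφ, h1, hgpow, hφ, mul_pow]
  · have h5 : orderOf g ∣ p ^ a := orderOf_dvd_of_pow_eq_one hg
    have h6 : Nat.Coprime (Fintype.card F - 1) (p ^ a) := by
      rw [← Nat.card_eq_fintype_card]
      exact Nat.Coprime.pow_right _ (Nat.Coprime.symm ((Nat.Prime.coprime_iff_not_dvd hp).2 hpF))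
    have h7 : ((Fintype.card F : ℕ) : ℤ) - 1 = ((Fintype.card F - 1 : ℕ) : ℤ) := by
      have : 1 ≤ Fintype.card F := Fintype.card_pos
      push_cast [this]
      ring
    rw [h7]
    exact (Nat.isCoprime_iff_coprime.2 h6).of_isCoprime_of_dvd_right (by exact_mod_cast h5)

/-- If the transvections are trivial then everything is. -/
theorem triv_all (h : Heil θ) (htv : ∀ (f : Dual F V) (v : V) (hv : f v = 0),
    θ (tv f v hv) = θ 1) (g : SpecialLinearGroup F V) : θ g = θ 1 := by
  have key : ∀ (m : ℕ) (g : SpecialLinearGroup F V), orderOf g ≤ m → θ g = θ 1 := by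
    intro m
    induction m with
    | zero =>
      intro g hg
      have := orderOf_pos g
      omega
    | succ m ih =>
      intro g hg
      by_cases hpp : IsPrimePow (orderOf g)
      · obtain ⟨p, k, hp, hk, hpk⟩ := hpp
        have hp' : p.Prime := hp.nat_prime
        have hgp : g ^ p ^ k = 1 := by rw [hpk, pow_orderOf_eq_one]
        by_cases hp2 : p = 2
        · subst hp2
          exact triv_two_pow h htv g k hgp
        · by_cases hd : p ∣ Nat.card F - 1
          · exact triv_case_dvd h htv g hp' hp2 hd hgp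
          · exact triv_case_not_dvd h htv g hp' hp2 hd hgp
      · exact triv_of_not_primePow h g (fun x hx => ih x (by omega)) hpp
  exact key _ g le_rfl

/-- **Main theorem** for the special linear group of a vector space. -/
theorem heil_const (h : Heil θ) {r : ℕ} (hr : θ 1 = r)
    (hcard : r + 1 < Nat.card F ^ (finrank F V - 1)) (g : SpecialLinearGroup F V) : θ g = θ 1 :=
  triv_all h (triv_tv h hr hcard) g

end Pool.Agent.H8.Sl
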