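import Pool.Agent.H8.Sl.Tv
import Pool.Agent.H7.Heil.Perm

/-!
Permutation matrices, diagonal matrices and monomial matrices in characteristic two, and Heilbronn
class functions of small degree on them.
-/

open Finset Pool.Agent.H7.HB Module

namespace Pool.Agent.H8.Sl

set_option linter.unusedSectionVars false

section perm

variable {ι : Type} [Fintype ι] [DecidableEq ι]

theorem neg_zpow_eq (g : Equiv.Perm ι) (r : ι) (i j : ℤ) (h : (g ^ i) r = (g ^ j) r) :
    (g ^ (-i)) r = (g ^ (-j)) r := by
  have h1 : (g ^ (-i - j)) ((g ^ i) r) = (g ^ (-i - j)) ((g ^ j) r) := by rw [h]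
  rw [← Equiv.Perm.mul_apply, ← Equiv.Perm.mul_apply, ← zpow_add, ← zpow_add] at h1
  have e1 : -i - j + i = -j := by ring
  have e2 : -i - j + j = -i := by ring
  rw [e1, e2] at h1
  exact h1.symm

/-- Every permutation is inverted by an involution. -/
theorem exists_invert (g : Equiv.Perm ι) : ∃ s : Equiv.Perm ι, s * s = 1 ∧ s * g * s⁻¹ = g⁻¹ := by
  classical
  obtain ⟨rep, hrep1, hrep2⟩ : ∃ rep : ι → ι, (∀ x, g.SameCycle (rep x) x) ∧
      ∀ x y, g.SameCycle x y → rep x = rep y := by
    let S : Setoid ι := ⟨g.SameCycle, ⟨fun _ => Equiv.Perm.SameCycle.refl _ _,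
      fun h => h.symm, fun h h' => h.trans h'⟩⟩
    refine ⟨fun x => Quotient.out (Quotient.mk S x), fun x => ?_, fun x y h => ?_⟩
    · exact Quotient.mk_out (s := S) x
    · have : Quotient.mk S x = Quotient.mk S y := Quotient.sound h
      exact congrArg Quotient.out this
  choose i hi using fun x => hrep1 x
  have hs : ∀ x (j : ℤ), (g ^ j) (rep x) = x → (g ^ (-(i x))) (rep x) = (g ^ (-j)) (rep x) := by
    intro x j hj
    exact neg_zpow_eq g _ _ _ (by rw [hj]; exact hi x)
  obtain ⟨s, hsdef⟩ : ∃ s : ι → ι, ∀ x, s x = (g ^ (-(i x))) (rep x) := ⟨_, fun _ => rfl⟩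
  have hsame : ∀ x, rep (s x) = rep x := by
    intro x
    have h1 : g.SameCycle (rep x) (s x) := ⟨-(i x), (hsdef x).symm⟩
    rw [← hrep2 _ _ h1]
    exact hrep2 _ _ (hrep1 x)
  have hinv : Function.Involutive s := by
    intro x
    have h1 := hs (s x) (-(i x)) (by rw [hsame, hsdef])
    rw [hsdef (s x), h1, hsame, neg_neg, hi]
  have hconj : ∀ x, s (g x) = g⁻¹ (s x) := by
    intro x
    have h0 : rep (g x) = rep x :=
      (hrep2 x (g x) (Equiv.Perm.sameCycle_apply_right.2 (Equiv.Perm.SameCycle.refl _ _))).symm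
    have h1 := hs (g x) (i x + 1) (by
      rw [h0, add_comm, zpow_add, Equiv.Perm.mul_apply, hi, zpow_one])
    rw [hsdef, h1, h0, hsdef, ← Equiv.Perm.mul_apply, ← zpow_neg_one, ← zpow_add]
    congr 2
    ring
  refine ⟨hinv.toPerm, ?_, ?_⟩
  · ext x
    rw [Equiv.Perm.mul_apply, Equiv.Perm.one_apply]
    exact hinv x
  · rw [mul_inv_eq_iff_eq_mul]
    ext x
    rw [Equiv.Perm.mul_apply, Equiv.Perm.mul_apply]
    exact hconj x

end perm

section mono

variable {F : Type} [Field F] [Finite F] [CharP F 2] {V : Type} [AddCommGroup V] [Module F V]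
  [FiniteDimensional F V] {ι : Type} [Fintype ι] [DecidableEq ι]

/-- Permutation maps in the general linear group -/
noncomputable def permGL (b : Basis ι F V) : Equiv.Perm ι →* (V ≃ₗ[F] V) where
  toFun σ := b.equiv b σ
  map_one' := by
    apply LinearEquiv.toLinearMap_injective
    refine b.ext fun i => ?_
    change (b.equiv b 1) (b i) = b i
    rw [Basis.equiv_apply]
    rfl
  map_mul' σ τ := by
    apply LinearEquiv.toLinearMap_injective
    refine b.ext fun i => ?_
    change (b.equiv b (σ * τ)) (b i) = (b.equiv b σ) ((b.equiv b τ) (b i))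
    rw [Basis.equiv_apply, Basis.equiv_apply, Basis.equiv_apply]
    rfl

theorem unit_eq_one_of_sq {u : Fˣ} (h : u * u = 1) : u = 1 := by
  ext
  have h1 : (u : F) * u = 1 := by rw [← Units.val_mul, h, Units.val_one]
  have h2 : ((u : F) - 1) * (u - 1) = 0 := by
    have h3 : ((2 : ℕ) : F) = 0 := CharP.cast_eq_zero F 2
    push_cast at h3
    linear_combination h1 + (1 - (u : F)) * h3
  have h3 := mul_self_eq_zero.1 h2
  rw [Units.val_one]
  exact sub_eq_zero.1 h3

theorem det_permGL (b : Basis ι F V) (σ : Equiv.Perm ι) : LinearEquiv.det (permGL b σ) = 1 := by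
  induction σ using Equiv.Perm.swap_induction_on with
  | one => rw [map_one, map_one]
  | swap_mul f x y hxy ih =>
    rw [map_mul, map_mul, ih, mul_one]
    apply unit_eq_one_of_sq
    rw [← map_mul, ← map_mul, Equiv.swap_mul_self, map_one, map_one]

/-- Permutation maps in the special linear group in characteristic two -/
noncomputable def permSL (b : Basis ι F V) : Equiv.Perm ι →* SpecialLinearGroup F V where
  toFun σ := ⟨permGL b σ, det_permGL b σ⟩
  map_one' := Subtype.ext (map_one _)
  map_mul' _ _ := Subtype.ext (map_mul _ _ _)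

theorem permSL_apply (b : Basis ι F V) (σ : Equiv.Perm ι) (i : ι) : permSL b σ (b i) = b (σ i) :=
  Basis.equiv_apply _ _ _ _

/-- Diagonal maps in the general linear group -/
noncomputable def diagGL (b : Basis ι F V) (d : ι → Fˣ) : V ≃ₗ[F] V :=
  b.equiv (b.unitsSMul d) (Equiv.refl ι)

theorem diagGL_apply (b : Basis ι F V) (d : ι → Fˣ) (i : ι) : diagGL b d (b i) = d i • b i := by
  unfold diagGL
  rw [Basis.equiv_apply, Basis.unitsSMul_apply]
  rfl

theorem det_diagGL (b : Basis ι F V) (d : ι → Fˣ) : LinearEquiv.det (diagGL b d) = ∏ i, d i := by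
  ext
  rw [LinearEquiv.coe_det, ← LinearMap.det_toMatrix b]
  have h1 : LinearMap.toMatrix b b (diagGL b d : V →ₗ[F] V)
      = Matrix.diagonal (fun i => (d i : F)) := by
    ext i j
    rw [LinearMap.toMatrix_apply]
    change b.repr (diagGL b d (b j)) i = _
    rw [diagGL_apply, Units.smul_def, map_smul, Finsupp.smul_apply, Basis.repr_self,
      Matrix.diagonal_apply, Finsupp.single_apply, smul_eq_mul]
    by_cases hij : i = j
    · subst hij
      rw [if_pos rfl, if_pos rfl, mul_one]
    · rw [if_neg (Ne.symm hij), if_neg hij, mul_zero]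
  rw [h1, Matrix.det_diagonal, Units.coe_prod]

/-- the product map -/
def prodHom (ι : Type) [Fintype ι] (F : Type) [Field F] : (ι → Fˣ) →* Fˣ where
  toFun d := ∏ i, d i
  map_one' := by simp
  map_mul' d e := by simp [Finset.prod_mul_distrib]

/-- Diagonal maps of determinant one. -/
noncomputable def diagSL (b : Basis ι F V) : (prodHom ι F).ker →* SpecialLinearGroup F V where
  toFun d := ⟨diagGL b d.1, by rw [det_diagGL]; exact d.2⟩
  map_one' := by
    apply Subtype.ext
    apply LinearEquiv.toLinearMap_injective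
    refine b.ext fun i => ?_
    change diagGL b 1 (b i) = b i
    rw [diagGL_apply, Pi.one_apply, one_smul]
  map_mul' d e := by
    apply Subtype.ext
    apply LinearEquiv.toLinearMap_injective
    refine b.ext fun i => ?_
    change diagGL b (d.1 * e.1) (b i) = diagGL b d.1 (diagGL b e.1 (b i))
    rw [diagGL_apply, diagGL_apply, Units.smul_def (e.1 i), map_smul, diagGL_apply, Pi.mul_apply,
      mul_comm, mul_smul]
    rfl

theorem diagSL_apply (b : Basis ι F V) (d : (prodHom ι F).ker) (i : ι) :
    diagSL b d (b i) = d.1 i • b i := diagGL_apply b d.1 i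

theorem ext_basis (b : Basis ι F V) (g h : SpecialLinearGroup F V) (hgh : ∀ i, g (b i) = h (b i)) :
    g = h := by
  apply Subtype.ext
  apply LinearEquiv.toLinearMap_injective
  exact b.ext hgh

/-- permuting the entries -/
def permE (σ : Equiv.Perm ι) (d : (prodHom ι F).ker) : (prodHom ι F).ker :=
  ⟨fun i => d.1 (σ⁻¹ i), by
    have h1 : ∏ i, d.1 i = 1 := d.2
    change ∏ i, d.1 (σ⁻¹ i) = 1
    rw [Equiv.prod_comp σ⁻¹ d.1, h1]⟩

theorem conj_diag (b : Basis ι F V) (σ : Equiv.Perm ι) (d : (prodHom ι F).ker) :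
    permSL b σ * diagSL b d * (permSL b σ)⁻¹ = diagSL b (permE σ d) := by
  rw [mul_inv_eq_iff_eq_mul]
  apply ext_basis b
  intro i
  rw [mul_app, mul_app, permSL_apply, diagSL_apply, diagSL_apply, Units.smul_def, smul_app,
    permSL_apply, Units.smul_def]
  congr 2
  change d.1 i = d.1 (σ⁻¹ (σ i))
  rw [inv_ap]

variable {θ : SpecialLinearGroup F V → ℂ}

/-- Permutation matrices are trivial. -/
theorem triv_perm (h : Heil θ) (htv : ∀ (f : Dual F V) (v : V) (hv : f v = 0),
    θ (tv f v hv) = θ 1) (b : Basis ι F V) (σ : Equiv.Perm ι) : θ (permSL b σ) = θ 1 := by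
  have h' : Heil (fun σ => θ (permSL b σ)) := h.comp (permSL b)
  have key : ∀ (m : ℕ) (σ : Equiv.Perm ι), orderOf σ ≤ m → θ (permSL b σ) = θ 1 := by
    intro m
    induction m with
    | zero =>
      intro σ hσ
      have := orderOf_pos σ
      omega
    | succ m ih =>
      intro σ hσ
      by_cases hpp : IsPrimePow (orderOf σ)
      · obtain ⟨p, k, hp, hk, hpk⟩ := hpp
        have hp' : p.Prime := hp.nat_prime
        by_cases hp2 : p = 2
        · subst hp2
          refine triv_two_pow h htv _ k ?_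
          rw [← map_pow, hpk, pow_orderOf_eq_one, map_one]
        · obtain ⟨s, hs1, hs2⟩ := exists_invert σ
          have hts : θ (permSL b s) = θ 1 := by
            refine triv_two_pow h htv _ 1 ?_
            rw [← map_pow, pow_one, pow_two, hs1, map_one]
          refine triv_of_conj_pow_coprime h (permSL b σ) (permSL b s) (-1) hts ?_ ?_
          · rw [← map_mul, ← map_inv, ← map_mul, hs2, zpow_neg_one, map_inv]
          · have h1 : orderOf (permSL b σ) ∣ p ^ k := by
              rw [hpk]
              exact orderOf_map_dvd _ _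
            have h2 : IsCoprime (2 : ℤ) ((p ^ k : ℕ) : ℤ) := by
              have : Nat.Coprime 2 (p ^ k) := Nat.Coprime.pow_right _
                ((Nat.coprime_primes Nat.prime_two hp').2 (Ne.symm hp2))
              exact_mod_cast Nat.isCoprime_iff_coprime.2 this
            have h3 : IsCoprime (-1 - 1 : ℤ) ((p ^ k : ℕ) : ℤ) := by
              have : (-1 - 1 : ℤ) = -2 := by norm_num
              rw [this]
              exact h2.neg_left
            exact h3.of_isCoprime_of_dvd_right (by exact_mod_cast h1)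
      · have := triv_of_not_primePow h' σ (fun x hx => by
          change θ (permSL b x) = θ (permSL b 1)
          rw [map_one]
          exact ih x (by omega)) hpp
        change θ (permSL b σ) = θ (permSL b 1) at this
        rwa [map_one] at this
  exact key _ σ le_rfl

theorem odd_card_sub_one : Odd (Nat.card F - 1) := by
  have := Fintype.ofFinite F
  rw [Nat.card_eq_fintype_card]
  have h2 : Fintype.card F % 2 = 0 := FiniteField.even_card_of_char_two
    (CharP.ringChar_of_prime_eq_zero Nat.prime_two (CharP.cast_eq_zero F 2))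
  have h3 : 0 < Fintype.card F := Fintype.card_pos
  rw [Nat.odd_iff]
  omega

theorem pow_card_units (u : Fˣ) : u ^ (Nat.card F - 1) = 1 := by
  rw [← Nat.card_units]
  exact pow_card_eq_one'

/-- the diagonal element with entries `c`, `c⁻¹` at two places -/
def pairE (c : Fˣ) (i j : ι) : (prodHom ι F).ker :=
  ⟨Pi.mulSingle i c * (Pi.mulSingle j c)⁻¹, by
    rw [MonoidHom.mem_ker, map_mul, map_inv]
    change (∏ k, Pi.mulSingle (M := fun _ => Fˣ) i c k)
      * (∏ k, Pi.mulSingle (M := fun _ => Fˣ) j c k)⁻¹ = 1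
    rw [Finset.prod_pi_mulSingle', Finset.prod_pi_mulSingle']
    simp⟩

theorem triv_pairE (h : Heil θ) (htv : ∀ (f : Dual F V) (v : V) (hv : f v = 0),
    θ (tv f v hv) = θ 1) (b : Basis ι F V) (c : Fˣ) (i j : ι) :
    θ (diagSL b (pairE c i j)) = θ 1 := by
  by_cases hij : i = j
  · subst hij
    have : pairE c i i = 1 := Subtype.ext (mul_inv_cancel _)
    rw [this, map_one]
  have hty := triv_perm h htv b (Equiv.swap i j)
  refine triv_of_conj_pow_coprime h _ _ (-1) hty ?_ ?_
  · rw [conj_diag, zpow_neg_one, ← map_inv]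
    congr 1
    apply Subtype.ext
    change (fun k => (Pi.mulSingle i c * (Pi.mulSingle j c)⁻¹ : ι → Fˣ) ((Equiv.swap i j)⁻¹ k))
      = (Pi.mulSingle i c * (Pi.mulSingle j c)⁻¹ : ι → Fˣ)⁻¹
    funext k
    rw [Equiv.swap_inv, Pi.inv_apply, Pi.mul_apply, Pi.mul_apply, Pi.inv_apply, Pi.inv_apply,
      mul_inv, inv_inv]
    by_cases hki : k = i
    · subst hki
      rw [Equiv.swap_apply_left, Pi.mulSingle_eq_of_ne (Ne.symm hij), Pi.mulSingle_eq_same,
        Pi.mulSingle_eq_same, Pi.mulSingle_eq_of_ne hij, one_mul, mul_one]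
    · by_cases hkj : k = j
      · subst hkj
        rw [Equiv.swap_apply_right, Pi.mulSingle_eq_of_ne hij, Pi.mulSingle_eq_same,
          Pi.mulSingle_eq_same, Pi.mulSingle_eq_of_ne (Ne.symm hij)]
        simp
      · rw [Equiv.swap_apply_of_ne_of_ne hki hkj, Pi.mulSingle_eq_of_ne hki,
          Pi.mulSingle_eq_of_ne hkj]
        simp
  · have h1 : orderOf (diagSL b (pairE c i j)) ∣ Nat.card F - 1 := by
      apply orderOf_dvd_of_pow_eq_one
      rw [← map_pow]
      have : (pairE c i j) ^ (Nat.card F - 1) = 1 := by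
        apply Subtype.ext
        funext k
        exact pow_card_units _
      rw [this, map_one]
    have h2 : IsCoprime (-1 - 1 : ℤ) ((Nat.card F - 1 : ℕ) : ℤ) := by
      have h3 : Nat.Coprime 2 (Nat.card F - 1) := (Nat.coprime_two_left).2 odd_card_sub_one
      have h4 : IsCoprime (2 : ℤ) ((Nat.card F - 1 : ℕ) : ℤ) := by
        exact_mod_cast Nat.isCoprime_iff_coprime.2 h3
      have : (-1 - 1 : ℤ) = -2 := by norm_num
      rw [this]
      exact h4.neg_left
    exact h2.of_isCoprime_of_dvd_right (by exact_mod_cast h1)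

/-- Diagonal matrices are trivial. -/
theorem triv_diag (h : Heil θ) (htv : ∀ (f : Dual F V) (v : V) (hv : f v = 0),
    θ (tv f v hv) = θ 1) (b : Basis ι F V) (d : (prodHom ι F).ker) :
    θ (diagSL b d) = θ 1 := by
  rcases isEmpty_or_nonempty ι with hι | ⟨⟨j⟩⟩
  · have : d = 1 := Subtype.ext (funext fun i => (hι.false i).elim)
    rw [this, map_one]
  have h1 : d = ∏ i, pairE (d.1 i) i j := by
    apply Subtype.ext
    have h2 : ((∏ i, pairE (d.1 i) i j : (prodHom ι F).ker) : ι → Fˣ)
        = ∏ i, (Pi.mulSingle i (d.1 i) * (Pi.mulSingle j (d.1 i))⁻¹ : ι → Fˣ) := by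
      rw [← Subgroup.subtype_apply, map_prod]
      rfl
    rw [h2, Finset.prod_mul_distrib, Finset.prod_inv_distrib, Finset.univ_prod_mulSingle]
    have h3 : ∏ i, (Pi.mulSingle j (d.1 i) : ι → Fˣ) = 1 := by
      have h4 : ∀ c, (Pi.mulSingle j c : ι → Fˣ) = MonoidHom.mulSingle (fun _ : ι => Fˣ) j c :=
        fun c => rfl
      simp_rw [h4]
      rw [← map_prod]
      have h5 : ∏ i, d.1 i = 1 := d.2
      rw [h5, map_one]
    rw [h3, inv_one, mul_one]
  rw [← mem_trivSubgroup h (diagSL b) d, h1]
  exact Subgroup.prod_mem _ (fun i _ => triv_pairE h htv b _ _ _)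

/-- Monomial matrices are trivial. -/
theorem triv_mono (h : Heil θ) (htv : ∀ (f : Dual F V) (v : V) (hv : f v = 0),
    θ (tv f v hv) = θ 1) (b : Basis ι F V) (σ : Equiv.Perm ι) (d : ι → Fˣ)
    (g : SpecialLinearGroup F V) (hg : ∀ i, g (b i) = d i • b (σ i)) : θ g = θ 1 := by
  have h1 : g.1 = diagGL b (fun i => d (σ⁻¹ i)) * permGL b σ := by
    apply LinearEquiv.toLinearMap_injective
    refine b.ext fun i => ?_
    change g (b i) = diagGL b (fun i => d (σ⁻¹ i)) (permSL b σ (b i))
    rw [hg, permSL_apply, diagGL_apply, inv_ap]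
  have h2 : ∏ i, d (σ⁻¹ i) = 1 := by
    rw [← det_diagGL b]
    have h3 := g.2
    rw [h1, map_mul, det_permGL, mul_one] at h3
    exact h3
  have h3 : g = diagSL b ⟨fun i => d (σ⁻¹ i), h2⟩ * permSL b σ := Subtype.ext h1
  rw [h3, split_left h _ _ ?_ (triv_diag h htv b _)]
  · exact triv_perm h htv b σ
  · intro i
    rw [← map_zpow, zpow_neg, ← map_zpow, conj_diag]
    change diagSL b _ * diagSL b _ = diagSL b _ * diagSL b _
    rw [← map_mul, ← map_mul, mul_comm]

end mono

end Pool.Agent.H8.Sl
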