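import Pool.Agent.H7.Heil.Tools

/-!
Heilbronn class functions: elements on which the function takes its value at `1` (trivial
elements), and how triviality propagates.
-/

open Finset Pool.Agent.H7.HB

namespace Pool.Agent.H8.Sl

variable {G : Type} [Group G] {θ : G → ℂ}

theorem triv_zpow [Finite G] (h : Heil θ) {a : G} (ha : θ a = θ 1) (k : ℤ) : θ (a ^ k) = θ 1 := by
  have key : ∀ k : ℤ, θ (a ^ (k - 1)) = θ (a ^ k) := by
    intro k
    have := split_ker h (a ^ k) a (fun i => by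
      have : Commute a (a ^ k) := Commute.self_zpow a k
      refine Commute.mul_right (Commute.mul_right (this.zpow_right i) (Commute.refl a))
        (this.zpow_right (-i))) ha
    rw [← this, zpow_sub, zpow_one, (Commute.zpow_self a k).inv_right.eq]
  induction k using Int.induction_on with
  | zero => rw [zpow_zero]
  | succ n ih =>
    rw [← ih, ← key (n + 1)]
    congr 2
    ring
  | pred n ih => rw [key, ih]

theorem triv_pow [Finite G] (h : Heil θ) {a : G} (ha : θ a = θ 1) (k : ℕ) : θ (a ^ k) = θ 1 := by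
  have := triv_zpow h ha k
  rwa [zpow_natCast] at this

theorem triv_inv [Finite G] (h : Heil θ) {a : G} (ha : θ a = θ 1) : θ a⁻¹ = θ 1 := by
  have := triv_zpow h ha (-1)
  rwa [zpow_neg, zpow_one] at this

theorem triv_mul_left [Finite G] (h : Heil θ) {a b : G} (hab : Commute a b) (ha : θ a = θ 1) :
    θ (a * b) = θ b := by
  have := split_ker h b a⁻¹ (fun i => by
    have h1 : Commute a⁻¹ b := hab.inv_left
    exact Commute.mul_right (Commute.mul_right (h1.zpow_right i) (Commute.refl _))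
      (h1.zpow_right (-i))) (triv_inv h ha)
  rwa [inv_inv] at this

/-- A trivial element of an abelian normalised group does not change values. -/
theorem split_left [Finite G] (h : Heil θ) (g z : G)
    (hcomm : ∀ i : ℤ, Commute z (g ^ i * z * g ^ (-i))) (hz : θ z = θ 1) :
    θ (z * g) = θ g := by
  have := split_ker h g z⁻¹ (fun i => by
    have h1 := hcomm i
    have h2 : g ^ i * z⁻¹ * g ^ (-i) = (g ^ i * z * g ^ (-i))⁻¹ := by
      rw [zpow_neg]; group
    rw [h2]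
    exact h1.inv_inv) (triv_inv h hz)
  rwa [inv_inv] at this

/-- If `y` is trivial and `x` commutes with its `y`-conjugates then the commutator `x y x⁻¹ y⁻¹` is
trivial, provided it also commutes with its conjugates. -/
theorem triv_comm [Finite G] (h : Heil θ) (x y : G) (hy : θ y = θ 1)
    (hcomm : ∀ i : ℤ, Commute (x * y * x⁻¹ * y⁻¹)
      ((x * y * x⁻¹) ^ i * (x * y * x⁻¹ * y⁻¹) * (x * y * x⁻¹) ^ (-i))) :
    θ (x * y * x⁻¹ * y⁻¹) = θ 1 := by
  have h1 := split_ker' h (x * y * x⁻¹) (x * y * x⁻¹ * y⁻¹) hcomm (by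
    have : (x * y * x⁻¹ * y⁻¹)⁻¹ * (x * y * x⁻¹) = y := by group
    rw [this, hy])
  rw [← h1, h.conj, hy]

/-- If `y` is trivial and `y x y⁻¹ = x ^ k` then `x ^ (k - 1)` is trivial. -/
theorem triv_of_conj_pow [Finite G] (h : Heil θ) (x y : G) (k : ℤ) (hy : θ y = θ 1)
    (hk : y * x * y⁻¹ = x ^ k) : θ (x ^ (k - 1)) = θ 1 := by
  have hyi : θ (y⁻¹) = θ 1 := triv_inv h hy
  have h0 : y * x * y⁻¹ * x⁻¹ = x ^ (k - 1) := by rw [hk, zpow_sub, zpow_one]
  -- powers of x are normalised by y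
  have h1 : ∀ j : ℤ, y * x ^ j * y⁻¹ = x ^ (k * j) := by
    intro j
    rw [zpow_mul, ← hk, ← MulAut.conj_apply, ← MulAut.conj_apply, map_zpow]
  have hnorm : ∀ (w : G), w ∈ Subgroup.zpowers x → y * w * y⁻¹ ∈ Subgroup.zpowers x := by
    rintro w ⟨j, rfl⟩
    exact ⟨k * j, (h1 j).symm⟩
  have hpow : ∀ (u : G), (∀ w ∈ Subgroup.zpowers x, u * w * u⁻¹ ∈ Subgroup.zpowers x) →
      ∀ n : ℕ, ∀ w ∈ Subgroup.zpowers x, u ^ n * w * (u ^ n)⁻¹ ∈ Subgroup.zpowers x := by
    intro u hu n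
    induction n with
    | zero => intro w hw; simpa using hw
    | succ n ih =>
      intro w hw
      have h2 : u ^ (n + 1) * w * (u ^ (n + 1))⁻¹ = u * (u ^ n * w * (u ^ n)⁻¹) * u⁻¹ := by
        rw [pow_succ']; group
      rw [h2]
      exact hu _ (ih w hw)
  have hzpow : ∀ (u : G), (∀ w ∈ Subgroup.zpowers x, u * w * u⁻¹ ∈ Subgroup.zpowers x) →
      ∀ i : ℤ, ∀ w ∈ Subgroup.zpowers x, u ^ i * w * (u ^ i)⁻¹ ∈ Subgroup.zpowers x := by
    intro u hu i w hw
    obtain ⟨n, hn⟩ : ∃ n : ℕ, u ^ n = u ^ i := by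
      have h3 : u ^ i ∈ Submonoid.powers u := by
        rw [mem_powers_iff_mem_zpowers]
        exact ⟨i, rfl⟩
      exact h3
    rw [← hn]
    exact hpow u hu n w hw
  -- use the inverse of y: x⁻¹ y x y⁻¹ ...
  have hc : x⁻¹ * y * (x⁻¹)⁻¹ * y⁻¹ = x ^ (k - 1) := by
    rw [inv_inv]
    have : x⁻¹ * y * x * y⁻¹ = x⁻¹ * (y * x * y⁻¹) := by group
    rw [this, hk, zpow_sub, zpow_one, ← zpow_neg_one, ← zpow_add, ← zpow_add, add_comm]
  have h2 := triv_comm h x⁻¹ y hy (by
    intro i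
    rw [hc]
    have hw := hzpow (x⁻¹ * y * (x⁻¹)⁻¹) (fun w hw => by
      obtain ⟨j, rfl⟩ := hw
      refine ⟨k * j, ?_⟩
      have h3 := h1 j
      have h4 : x⁻¹ * y * (x⁻¹)⁻¹ * x ^ j * (x⁻¹ * y * (x⁻¹)⁻¹)⁻¹
          = x⁻¹ * (y * (x * x ^ j * x⁻¹) * y⁻¹) * x := by group
      have h5 : x * x ^ j * x⁻¹ = x ^ j := by
        rw [(Commute.self_zpow x j).eq, mul_inv_cancel_right]
      change x ^ (k * j) = x⁻¹ * y * (x⁻¹)⁻¹ * x ^ j * (x⁻¹ * y * (x⁻¹)⁻¹)⁻¹
      rw [h4, h5, h3, mul_assoc, (Commute.zpow_self x (k * j)).eq, inv_mul_cancel_left]) i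
      (x ^ (k - 1)) ⟨k - 1, rfl⟩
    rw [zpow_neg]
    obtain ⟨j, hj⟩ := hw
    rw [← hj]
    exact Commute.zpow_zpow_self x _ _)
  rwa [hc] at h2

/-- If `y` is trivial, `y x y⁻¹ = x ^ k` and `k - 1` is prime to the order of `x`, then `x` is
trivial. -/
theorem triv_of_conj_pow_coprime [Finite G] (h : Heil θ) (x y : G) (k : ℤ) (hy : θ y = θ 1)
    (hk : y * x * y⁻¹ = x ^ k) (hcop : IsCoprime (k - 1) (orderOf x : ℤ)) : θ x = θ 1 := by
  have h1 := triv_of_conj_pow h x y k hy hk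
  obtain ⟨a, b, hab⟩ := hcop
  have h2 := triv_zpow h h1 a
  rw [← zpow_mul] at h2
  have h3 : x = x ^ ((k - 1) * a) := by
    have h4 : (k - 1) * a = 1 - (orderOf x : ℤ) * b := by linarith
    rw [h4, zpow_sub, zpow_one, zpow_mul, zpow_natCast, pow_orderOf_eq_one, one_zpow, inv_one,
      mul_one]
  rw [← h3] at h2
  exact h2

/-- An abelian group of order `> θ(1) + 1` all of whose nontrivial elements have the same value
consists of trivial elements. -/
theorem triv_of_const (h : Heil θ) {E : Type} [CommGroup E] [Fintype E] (φ : E →* G) {r : ℕ}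
    (hr : θ 1 = r) (hcard : r + 1 < Fintype.card E)
    (hconst : ∀ e e' : E, e ≠ 1 → e' ≠ 1 → θ (φ e) = θ (φ e')) (e : E) : θ (φ e) = θ 1 := by
  classical
  by_cases he : e = 1
  · rw [he, map_one]
  obtain ⟨χ, hχ⟩ := exists_char_ne_one he
  obtain ⟨τ, hτ⟩ : ∃ τ, θ (φ e) = τ := ⟨_, rfl⟩
  have hval : ∀ a : E, θ (φ a) = τ + if a = 1 then ((r : ℂ) - τ) else 0 := by
    intro a
    by_cases ha : a = 1
    · rw [if_pos ha, ha, map_one, hr]; ring
    · rw [if_neg ha, add_zero, ← hτ, hconst a e ha he]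
  have hsum : ∀ ψ : E →* ℂˣ, ∑ a : E, θ (φ a) * (((ψ a)⁻¹ : ℂˣ) : ℂ)
      = τ * ∑ a : E, (((ψ⁻¹) a : ℂˣ) : ℂ) + ((r : ℂ) - τ) := by
    intro ψ
    rw [Finset.mul_sum]
    have h3 : ∀ a : E, θ (φ a) * (((ψ a)⁻¹ : ℂˣ) : ℂ)
        = τ * (((ψ⁻¹) a : ℂˣ) : ℂ) + if a = 1 then ((r : ℂ) - τ) else 0 := by
      intro a
      rw [hval a]
      by_cases ha : a = 1
      · subst ha; simp
      · rw [if_neg ha, add_zero, add_zero]
        rfl
    simp_rw [h3]
    rw [Finset.sum_add_distrib, Finset.sum_ite_eq' Finset.univ (1 : E)]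
    simp
  have h1 := mult_sum h φ χ
  have h2 := mult_sum h φ 1
  rw [hsum, sum_elt] at h1 h2
  have hχ' : χ⁻¹ ≠ 1 := fun h' => hχ (by
    have h'' := DFunLike.congr_fun h' e
    simpa using h'')
  rw [if_neg hχ', mul_zero, zero_add] at h1
  have h1inv : (1 : E →* ℂˣ)⁻¹ = 1 := by
    ext x
    simp
  rw [if_pos h1inv] at h2
  obtain ⟨m, hm⟩ : ∃ m, mult h φ χ = m := ⟨_, rfl⟩
  obtain ⟨m', hm'⟩ : ∃ m, mult h φ 1 = m := ⟨_, rfl⟩
  rw [hm] at h1
  rw [hm'] at h2
  have hE : (Fintype.card E : ℂ) ≠ 0 := card_ne_zero'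
  have h3 : (r : ℂ) = m' + m * ((Fintype.card E : ℂ) - 1) := by
    have h4 : τ = r - m * (Fintype.card E : ℂ) := by linear_combination -h1
    rw [h4] at h2
    have h5 : (Fintype.card E : ℂ) * (r : ℂ)
        = (Fintype.card E : ℂ) * (m' + m * ((Fintype.card E : ℂ) - 1)) := by
      linear_combination h2
    exact mul_left_cancel₀ hE h5
  have h4 : (r : ℤ) = m' + m * ((Fintype.card E : ℤ) - 1) := by
    have : ((r : ℤ) : ℂ) = ((m' + m * ((Fintype.card E : ℤ) - 1) : ℤ) : ℂ) := by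
      push_cast
      exact h3
    exact_mod_cast this
  have h5 : m = 0 := by
    by_contra hne
    have h6 : (1 : ℤ) ≤ m := by omega
    have h7 : (1 : ℤ) * ((Fintype.card E : ℤ) - 1) ≤ m * ((Fintype.card E : ℤ) - 1) :=
      mul_le_mul_of_nonneg_right h6 (by omega)
    omega
  rw [h5, Nat.cast_zero, zero_mul] at h1
  rw [hτ, hr]
  linear_combination -h1

/-- The trivial elements in the image of a commutative group form a subgroup. -/
def trivSubgroup [Finite G] (h : Heil θ) {E : Type} [CommGroup E] (φ : E →* G) : Subgroup E where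
  carrier := {e | θ (φ e) = θ 1}
  one_mem' := by
    change θ (φ 1) = θ 1
    rw [map_one]
  mul_mem' := by
    intro a b ha hb
    change θ (φ (a * b)) = θ 1
    rw [map_mul, triv_mul_left h ?_ ha]
    · exact hb
    · change φ a * φ b = φ b * φ a
      rw [← map_mul, ← map_mul, mul_comm]
  inv_mem' := by
    intro a ha
    change θ (φ a⁻¹) = θ 1
    rw [map_inv]
    exact triv_inv h ha

theorem mem_trivSubgroup [Finite G] (h : Heil θ) {E : Type} [CommGroup E] (φ : E →* G) (e : E) :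
    e ∈ trivSubgroup h φ ↔ θ (φ e) = θ 1 := Iff.rfl

/-- Reduction to prime power order: if all elements of smaller order are trivial and the order is
not a prime power then the element is trivial. -/
theorem triv_of_not_primePow [Finite G] (h : Heil θ) (g : G)
    (hind : ∀ x : G, orderOf x < orderOf g → θ x = θ 1) (hpp : ¬ IsPrimePow (orderOf g)) :
    θ g = θ 1 := by
  by_cases h1 : orderOf g = 1
  · rw [orderOf_eq_one_iff.1 h1]
  have hpos : 0 < orderOf g := orderOf_pos g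
  obtain ⟨p, hp, hpd⟩ := Nat.exists_prime_and_dvd h1
  obtain ⟨k, m, hm, hkm⟩ := Nat.exists_eq_pow_mul_and_not_dvd hpos.ne' p hp.ne_one
  have hk : k ≠ 0 := by
    rintro rfl
    rw [pow_zero, one_mul] at hkm
    exact hm (hkm ▸ hpd)
  have hm1 : m ≠ 1 := by
    rintro rfl
    apply hpp
    rw [hkm, mul_one]
    exact hp.isPrimePow.pow hk
  have hm0 : m ≠ 0 := by
    rintro rfl
    simp at hm
  have hpk : 1 < p ^ k := Nat.one_lt_pow hk hp.one_lt
  have hcop : Nat.Coprime (p ^ k) m := Nat.Coprime.pow_left k ((Nat.Prime.coprime_iff_not_dvd hp).2 hm)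
  have ho1 : orderOf (g ^ (p ^ k)) = m := by
    rw [orderOf_pow' g (by positivity), hkm, Nat.gcd_eq_right (Dvd.intro _ rfl),
      Nat.mul_div_cancel_left _ (by positivity)]
  have ho2 : orderOf (g ^ m) = p ^ k := by
    rw [orderOf_pow' g hm0, hkm, Nat.gcd_eq_right (Dvd.intro_left _ rfl),
      Nat.mul_div_cancel _ (Nat.pos_of_ne_zero hm0)]
  have t1 : θ (g ^ (p ^ k)) = θ 1 := hind _ (by
    rw [ho1, hkm]
    exact lt_mul_of_one_lt_left (Nat.pos_of_ne_zero hm0) hpk)
  have t2 : θ (g ^ m) = θ 1 := hind _ (by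
    rw [ho2, hkm]
    exact lt_mul_of_one_lt_right (by positivity) (by omega))
  obtain ⟨a, b, hab⟩ := Nat.isCoprime_iff_coprime.2 hcop
  have e1 : g = (g ^ (p ^ k)) ^ a * (g ^ m) ^ b := by
    rw [← zpow_natCast, ← zpow_natCast, ← zpow_mul, ← zpow_mul, ← zpow_add]
    have : ((p ^ k : ℕ) : ℤ) * a + (m : ℤ) * b = 1 := by linarith
    rw [this, zpow_one]
  rw [e1, triv_mul_left h ?_ (triv_zpow h t1 a)]
  · exact triv_zpow h t2 b
  · exact ((Commute.pow_pow_self g _ _).zpow_zpow _ _)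

end Pool.Agent.H8.Sl
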