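import Pool.Agent.H8.Sl.Tools
import Mathlib.LinearAlgebra.Transvection.Basic
import Mathlib.LinearAlgebra.SpecialLinearGroup

/-!
Transvections and unipotent elements of the special linear group over a field of characteristic
two, and Heilbronn class functions of small degree on them.
-/

open Finset Pool.Agent.H7.HB Module

namespace Pool.Agent.H8.Sl

set_option linter.unusedSectionVars false

section field

variable {F : Type} [Field F] {V : Type} [AddCommGroup V] [Module F V]

/-- The transvection `x ↦ x + f x • v`. -/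
def tv (f : Dual F V) (v : V) (h : f v = 0) : SpecialLinearGroup F V :=
  ⟨LinearEquiv.transvection h, LinearEquiv.transvection.det_eq_one h⟩

theorem tv_apply (f : Dual F V) (v : V) (h : f v = 0) (x : V) : tv f v h x = x + f x • v := rfl

theorem mul_app (g h : SpecialLinearGroup F V) (x : V) : (g * h) x = g (h x) := rfl

theorem one_app (x : V) : (1 : SpecialLinearGroup F V) x = x := rfl

theorem inv_app_self (g : SpecialLinearGroup F V) (x : V) : g⁻¹ (g x) = x :=
  g.1.symm_apply_apply x

theorem app_inv_self (g : SpecialLinearGroup F V) (x : V) : g (g⁻¹ x) = x :=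
  g.1.apply_symm_apply x

theorem add_app (g : SpecialLinearGroup F V) (x y : V) : g (x + y) = g x + g y := map_add g.1 x y

theorem smul_app (g : SpecialLinearGroup F V) (c : F) (x : V) : g (c • x) = c • g x :=
  map_smul g.1 c x

theorem tv_mul (f : Dual F V) (v w : V) (hv : f v = 0) (hw : f w = 0) (hvw : f (v + w) = 0) :
    tv f v hv * tv f w hw = tv f (v + w) hvw := by
  ext x
  rw [mul_app, tv_apply, tv_apply, tv_apply, map_add, map_smul, hw, smul_zero, add_zero, smul_add]
  abel

/-- The group of transvections with given form. -/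
def tvHom (f : Dual F V) : Multiplicative (LinearMap.ker f) →* SpecialLinearGroup F V where
  toFun v := tv f (v.toAdd : LinearMap.ker f).1 (LinearMap.mem_ker.1 (v.toAdd : LinearMap.ker f).2)
  map_one' := by
    ext x
    exact (tv_apply _ _ _ _).trans (by simp)
  map_mul' v w := by
    have h1 : f ((v.toAdd : LinearMap.ker f).1 + (w.toAdd : LinearMap.ker f).1) = 0 := by
      rw [map_add, LinearMap.mem_ker.1 (v.toAdd : LinearMap.ker f).2,
        LinearMap.mem_ker.1 (w.toAdd : LinearMap.ker f).2, add_zero]
    exact (tv_mul _ _ _ _ _ h1).symm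

/-- Conjugates of transvections. -/
theorem conj_tv (g : SpecialLinearGroup F V) (f : Dual F V) (v : V) (h : f v = 0) (f' : Dual F V)
    (v' : V) (h' : f' v' = 0) (hg : ∀ x, f x • g v = f' (g x) • v') :
    g * tv f v h * g⁻¹ = tv f' v' h' := by
  rw [mul_inv_eq_iff_eq_mul]
  ext x
  rw [mul_app, mul_app, tv_apply, tv_apply, add_app, smul_app, hg]

/-- The element `diag(d, d⁻¹)` on the plane spanned by `v` and `y` -/
theorem exists_scale (f k : Dual F V) (v y : V) (hfv : f v = 0) (hfy : f y = 1) (hkv : k v = 1)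
    [FiniteDimensional F V] (d : F) (hd : d ≠ 0) :
    ∃ g : SpecialLinearGroup F V, g v = d • v ∧ ∀ x, f (g x) = d⁻¹ * f x := by
  have h1 : IsUnit (1 + k ((d - 1) • v)) := by
    rw [map_smul, hkv, smul_eq_mul, mul_one, add_sub_cancel]
    exact IsUnit.mk0 _ hd
  have h2 : IsUnit (1 + f ((d⁻¹ - 1) • y)) := by
    rw [map_smul, hfy, smul_eq_mul, mul_one, add_sub_cancel]
    exact IsUnit.mk0 _ (inv_ne_zero hd)
  refine ⟨⟨LinearEquiv.dilatransvection h2 * LinearEquiv.dilatransvection h1, ?_⟩, ?_, ?_⟩
  · rw [map_mul]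
    ext
    rw [Units.val_mul, LinearEquiv.coe_det, LinearEquiv.coe_det,
      LinearEquiv.dilatransvection.coe_toLinearMap, LinearEquiv.dilatransvection.coe_toLinearMap,
      LinearMap.transvection.det, LinearMap.transvection.det, map_smul, hfy, map_smul, hkv,
      smul_eq_mul, smul_eq_mul, mul_one, mul_one, add_sub_cancel, add_sub_cancel,
      inv_mul_cancel₀ hd, Units.val_one]
  · change (LinearEquiv.dilatransvection h2) ((LinearEquiv.dilatransvection h1) v) = _
    rw [LinearEquiv.dilatransvection.apply, LinearEquiv.dilatransvection.apply, hkv, one_smul,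
      map_add, map_smul, hfv, smul_zero, add_zero, zero_smul, add_zero, sub_smul, one_smul,
      add_sub_cancel]
  · intro x
    change f ((LinearEquiv.dilatransvection h2) ((LinearEquiv.dilatransvection h1) x)) = _
    rw [LinearEquiv.dilatransvection.apply, LinearEquiv.dilatransvection.apply]
    simp only [map_add, map_smul, hfv, smul_eq_mul, hfy]
    ring

end field

section triv

variable {F : Type} [Field F] [Finite F] [CharP F 2] {V : Type} [AddCommGroup V] [Module F V]
  [FiniteDimensional F V]

instance finite_SL : Finite (SpecialLinearGroup F V) := by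
  have : Finite V := Module.finite_of_finite F
  have : Finite (V ≃ₗ[F] V) := Finite.of_injective (fun g : V ≃ₗ[F] V => (g : V → V))
    DFunLike.coe_injective
  infer_instance

variable {θ : SpecialLinearGroup F V → ℂ}

/-- a form with given nonzero values -/
theorem exists_form_one (v : V) (hv : v ≠ 0) : ∃ k : Dual F V, k v = 1 := by
  have hv' : v ∉ (⊥ : Submodule F V) := by simpa using hv
  obtain ⟨k, hk, -⟩ := Submodule.exists_le_ker_of_notMem hv'
  refine ⟨(k v)⁻¹ • k, ?_⟩
  rw [LinearMap.smul_apply, smul_eq_mul, inv_mul_cancel₀ hk]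

theorem exists_form_two (v w : V) (hv : v ≠ 0) (hw : ∀ c : F, w ≠ c • v) :
    ∃ k : Dual F V, k v = 1 ∧ k w = 1 := by
  obtain ⟨k₁, h₁⟩ := exists_form_one (F := F) v hv
  have hw' : w ∉ Submodule.span F {v} := by
    rw [Submodule.mem_span_singleton]
    rintro ⟨c, hc⟩
    exact hw c hc.symm
  obtain ⟨k₂, h₂, h₃⟩ := Submodule.exists_le_ker_of_notMem hw'
  have h₄ : k₂ v = 0 := h₃ (Submodule.mem_span_singleton_self v)
  refine ⟨k₁ + ((1 - k₁ w) * (k₂ w)⁻¹) • k₂, ?_, ?_⟩
  · rw [LinearMap.add_apply, LinearMap.smul_apply, h₄, smul_zero, add_zero, h₁]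
  · rw [LinearMap.add_apply, LinearMap.smul_apply, smul_eq_mul, inv_mul_cancel_right₀ h₂]
    ring

/-- Two transvections with the same form are conjugate. -/
theorem val_tv_eq (h : Heil θ) (f : Dual F V) (v w : V) (hv : f v = 0) (hw : f w = 0)
    (hv0 : v ≠ 0) (hw0 : w ≠ 0) : θ (tv f v hv) = θ (tv f w hw) := by
  by_cases hf : f = 0
  · subst hf
    congr 1
    ext x
    rw [tv_apply, tv_apply, LinearMap.zero_apply, zero_smul, zero_smul]
  by_cases hli : ∀ c : F, w ≠ c • v
  · obtain ⟨k, hk1, hk2⟩ := exists_form_two v w hv0 hli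
    have hk : k (w - v) = 0 := by rw [map_sub, hk1, hk2, sub_self]
    rw [← conj_tv (tv k (w - v) hk) f v hv f w hw ?_, h.conj]
    intro x
    rw [tv_apply, tv_apply, hk1, one_smul, add_sub_cancel, map_add, map_smul, map_sub, hv, hw,
      sub_zero, smul_zero, add_zero]
  · push Not at hli
    obtain ⟨c, hc⟩ := hli
    have hc0 : c ≠ 0 := by
      rintro rfl
      exact hw0 (by rw [hc, zero_smul])
    obtain ⟨d, hd⟩ : ∃ d : F, d * d = c := by
      have := FiniteField.isSquare_of_char_two (CharP.ringChar_of_prime_eq_zero Nat.prime_two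
        (CharP.cast_eq_zero F 2)) c
      obtain ⟨d, hd⟩ := this
      exact ⟨d, hd.symm⟩
    have hd0 : d ≠ 0 := by
      rintro rfl
      exact hc0 (by rw [← hd, mul_zero])
    obtain ⟨k, hk⟩ := exists_form_one (F := F) v hv0
    obtain ⟨y, hy⟩ : ∃ y, f y = 1 := by
      obtain ⟨y, hy⟩ := DFunLike.ne_iff.1 hf
      refine ⟨(f y)⁻¹ • y, ?_⟩
      rw [map_smul, smul_eq_mul, inv_mul_cancel₀ hy]
    obtain ⟨g, hg1, hg2⟩ := exists_scale f k v y hv hy hk d hd0
    rw [← conj_tv g f v hv f w hw ?_, h.conj]
    intro x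
    rw [hg1, hg2, hc, ← hd, smul_smul, smul_smul]
    congr 1
    field_simp

theorem triv_tv (h : Heil θ) {r : ℕ} (hr : θ 1 = r)
    (hcard : r + 1 < Nat.card F ^ (finrank F V - 1)) (f : Dual F V) (v : V) (hv : f v = 0) :
    θ (tv f v hv) = θ 1 := by
  classical
  by_cases hf : f = 0
  · subst hf
    congr 1
    ext x
    rw [tv_apply, one_app, LinearMap.zero_apply, zero_smul, add_zero]
  have hfinV : Finite V := Module.finite_of_finite F
  have hfin : Finite (LinearMap.ker f) := inferInstance
  have hfin2 : Finite (Multiplicative (LinearMap.ker f)) := hfin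
  let _ : Fintype (Multiplicative (LinearMap.ker f)) := Fintype.ofFinite _
  have hc : Fintype.card (Multiplicative (LinearMap.ker f))
      = Nat.card F ^ (finrank F V - 1) := by
    rw [← Nat.card_eq_fintype_card]
    change Nat.card (LinearMap.ker f) = _
    rw [Module.natCard_eq_pow_finrank (K := F)]
    congr 1
    have := Module.Dual.finrank_ker_add_one_of_ne_zero hf
    omega
  have := triv_of_const h (tvHom f) hr (by rw [hc]; exact hcard) (fun e e' he he' => by
    exact val_tv_eq h f _ _ _ _ (fun h0 => he (Subtype.ext h0)) (fun h0 => he' (Subtype.ext h0)))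
    (Multiplicative.ofAdd ⟨v, hv⟩)
  exact this

/-- All unipotent elements are trivial. -/
theorem triv_unipotent (h : Heil θ) (htv : ∀ (f : Dual F V) (v : V) (hv : f v = 0),
    θ (tv f v hv) = θ 1) (k : ℕ) : ∀ (m : ℕ) (g : SpecialLinearGroup F V),
    finrank F (LinearMap.range ((g.1 : V →ₗ[F] V) - 1)) ≤ m →
    ((g.1 : V →ₗ[F] V) - 1) ^ k = 0 → θ g = θ 1 := by
  intro m
  induction m with
  | zero =>
    intro g hg _
    have h0 : LinearMap.range ((g.1 : V →ₗ[F] V) - 1) = ⊥ :=
      Submodule.finrank_eq_zero.1 (by omega)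
    have h1 : g = 1 := by
      ext x
      have h2 := LinearMap.congr_fun (LinearMap.range_eq_bot.1 h0) x
      rw [LinearMap.sub_apply, LinearMap.zero_apply, sub_eq_zero] at h2
      exact h2
    rw [h1]
  | succ m ih =>
    intro g hg hk
    obtain ⟨N, hN⟩ : ∃ N : V →ₗ[F] V, N = (g.1 : V →ₗ[F] V) - 1 := ⟨_, rfl⟩
    rw [← hN] at hg hk
    have hgx : ∀ x, g x = x + N x := by
      intro x
      rw [hN]
      change g x = x + (g x - x)
      abel
    by_cases hN0 : N = 0
    · have h1 : g = 1 := by
        ext x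
        rw [hgx, hN0, LinearMap.zero_apply, add_zero, one_app]
      rw [h1]
    have hlt : LinearMap.range N ⊔ LinearMap.ker N < ⊤ := by
      rw [lt_top_iff_ne_top]
      intro htop
      have h1 : ∀ j : ℕ, LinearMap.range N ≤ LinearMap.range (N ^ (j + 1)) := by
        intro j
        induction j with
        | zero => rw [zero_add, pow_one]
        | succ j ihj =>
          rintro _ ⟨x, rfl⟩
          have hx : x ∈ LinearMap.range N ⊔ LinearMap.ker N := htop ▸ Submodule.mem_top
          obtain ⟨y, hy, z, hz, rfl⟩ := Submodule.mem_sup.1 hx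
          rw [map_add, LinearMap.mem_ker.1 hz, add_zero]
          obtain ⟨w, hw⟩ := ihj hy
          refine ⟨w, ?_⟩
          rw [pow_succ' N (j + 1), Module.End.mul_apply, hw]
      have h2 := h1 k
      rw [pow_succ, hk, zero_mul, LinearMap.range_zero] at h2
      exact hN0 (LinearMap.range_eq_bot.1 (le_bot_iff.1 h2))
    obtain ⟨f, hf0, hf⟩ := Submodule.exists_le_ker_of_lt_top _ hlt
    have hfN : ∀ x, f (N x) = 0 := fun x => hf (Submodule.mem_sup_left ⟨x, rfl⟩)
    have hfk : ∀ x, N x = 0 → f x = 0 := fun x hx => hf (Submodule.mem_sup_right hx)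
    obtain ⟨y, hy⟩ : ∃ y, f y = 1 := by
      obtain ⟨y, hy⟩ := DFunLike.ne_iff.1 hf0
      refine ⟨(f y)⁻¹ • y, ?_⟩
      rw [map_smul, smul_eq_mul, inv_mul_cancel₀ hy]
    have hNy : N y ≠ 0 := fun h0 => by
      have := hfk y h0
      rw [hy] at this
      exact one_ne_zero this
    obtain ⟨z, hz⟩ : ∃ z, z = tv f (N y) (hfN y) := ⟨_, rfl⟩
    have hfg : ∀ (i : ℤ) x, f ((g ^ i : SpecialLinearGroup F V) x) = f x := by
      have h1 : ∀ x, f (g x) = f x := fun x => by rw [hgx, map_add, hfN, add_zero]
      have h2 : ∀ x, f ((g⁻¹ : SpecialLinearGroup F V) x) = f x := fun x => by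
        rw [← h1, app_inv_self]
      intro i
      induction i using Int.induction_on with
      | zero => intro x; rw [zpow_zero, one_app]
      | succ n ih => intro x; rw [zpow_add_one, mul_app, ih, h1]
      | pred n ih => intro x; rw [zpow_sub_one, mul_app, ih, h2]
    have hcomm : ∀ i : ℤ, Commute z (g ^ i * z * g ^ (-i)) := by
      intro i
      have h1 : f ((g ^ i : SpecialLinearGroup F V) (N y)) = 0 := by rw [hfg, hfN]
      rw [zpow_neg, hz, conj_tv (g ^ i) f (N y) (hfN y) f _ h1 (fun x => by rw [hfg])]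
      change tv _ _ _ * tv _ _ _ = tv _ _ _ * tv _ _ _
      have h2 : f (N y + (g ^ i : SpecialLinearGroup F V) (N y)) = 0 := by
        rw [map_add, h1, hfN, add_zero]
      have h3 : f ((g ^ i : SpecialLinearGroup F V) (N y) + N y) = 0 := by
        rw [map_add, h1, hfN, add_zero]
      rw [tv_mul _ _ _ _ _ h2, tv_mul _ _ _ _ _ h3]
      congr 1
      exact add_comm _ _
    have hkey : θ (z⁻¹ * g) = θ g := split_ker h g z hcomm (by rw [hz]; exact htv _ _ _)
    rw [← hkey]
    -- the new element
    have hzi : z⁻¹ = tv f (-(N y)) (by rw [map_neg, hfN, neg_zero]) := by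
      rw [inv_eq_iff_mul_eq_one, hz, tv_mul _ _ _ _ _ (by rw [add_neg_cancel, map_zero])]
      ext x
      rw [tv_apply, one_app, add_neg_cancel, smul_zero, add_zero]
    obtain ⟨N', hN'⟩ : ∃ N' : V →ₗ[F] V, N' = ((z⁻¹ * g).1 : V →ₗ[F] V) - 1 := ⟨_, rfl⟩
    have hN'x : ∀ x, N' x = N (x - f x • y) := by
      intro x
      rw [hN']
      change (z⁻¹ * g) x - x = _
      rw [mul_app, hzi, tv_apply, hgx, map_add, hfN, add_zero, map_sub, map_smul, smul_neg]
      abel
    have hker : LinearMap.ker N < LinearMap.ker N' := by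
      refine lt_of_le_of_ne (fun x hx => ?_) (fun he => ?_)
      · rw [LinearMap.mem_ker] at hx ⊢
        rw [hN'x, hfk x hx, zero_smul, sub_zero, hx]
      · have h1 : y ∈ LinearMap.ker N' := by
          rw [LinearMap.mem_ker, hN'x, hy, one_smul, sub_self, map_zero]
        rw [← he] at h1
        exact hNy h1
    have hfr : finrank F (LinearMap.range N') < finrank F (LinearMap.range N) := by
      have h1 := Submodule.finrank_lt_finrank_of_lt hker
      have h2 := LinearMap.finrank_range_add_finrank_ker N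
      have h3 := LinearMap.finrank_range_add_finrank_ker N'
      omega
    refine ih (z⁻¹ * g) (by rw [← hN']; omega) ?_
    rw [← hN']
    have hpow : ∀ j : ℕ, ∀ x, (N' ^ (j + 1)) x = (N ^ (j + 1)) (x - f x • y) := by
      intro j
      induction j with
      | zero => intro x; rw [zero_add, pow_one, pow_one, hN'x]
      | succ j ihj =>
        intro x
        rw [pow_succ' N' (j + 1), Module.End.mul_apply, hN'x, ihj]
        have h1 : f ((N ^ (j + 1)) (x - f x • y)) = 0 := by
          rw [pow_succ' N j, Module.End.mul_apply, hfN]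
        rw [h1, zero_smul, sub_zero, pow_succ' N (j + 1), Module.End.mul_apply]
    rcases k with _ | k
    · rw [pow_zero] at hk
      exfalso
      apply hN0
      rw [← mul_one N, hk, mul_zero]
    · ext x
      rw [hpow, hk, LinearMap.zero_apply, LinearMap.zero_apply]

/-- All elements of `2`-power order are trivial. -/
theorem triv_two_pow (h : Heil θ) (htv : ∀ (f : Dual F V) (v : V) (hv : f v = 0),
    θ (tv f v hv) = θ 1) (g : SpecialLinearGroup F V) (k : ℕ) (hg : g ^ (2 ^ k) = 1) :
    θ g = θ 1 := by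
  rcases subsingleton_or_nontrivial V with hV | hV
  · congr 1
    ext x
    exact Subsingleton.elim _ _
  refine triv_unipotent h htv (2 ^ k) _ g le_rfl ?_
  have : CharP (Module.End F V) 2 :=
    charP_of_injective_algebraMap (algebraMap F (Module.End F V)).injective 2
  have h1 := sub_pow_char_pow_of_commute (p := 2) (x := ((g.1 : V →ₗ[F] V) : Module.End F V))
    (y := 1) k (Commute.one_right _)
  rw [h1, one_pow, sub_eq_zero]
  have h2 : ∀ j : ℕ, ∀ x, (((g.1 : V →ₗ[F] V) : Module.End F V) ^ j) x = (g ^ j) x := by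
    intro j
    induction j with
    | zero => intro x; rw [pow_zero, pow_zero, one_app]; rfl
    | succ j ih =>
      intro x
      rw [pow_succ', pow_succ', Module.End.mul_apply, ih, mul_app]
      rfl
  ext x
  rw [h2, hg, one_app]
  rfl

end triv

end Pool.Agent.H8.Sl
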